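import Pool.Agent.Y508.Basic

/-!
A monotonic, `V₁`-preserving planar symmetrization, invariant on symmetric sets, which is not
canonical.
-/

set_option autoImplicit false
open MeasureTheory Set Filter Topology

namespace Pool.Agent.Results.MP_84aa88_gt.NonCanonical

/-- the family of nonempty compact convex subsets of the plane -/
structure IsConvexCompact (K : Set (EuclideanSpace ℝ (Fin 2))) : Prop where
  nonempty : K.Nonempty
  compact : IsCompact K
  convex : Convex ℝ K

/-- the support function at the unit vector `(cos θ, sin θ)` -/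
noncomputable def supp (K : Set (EuclideanSpace ℝ (Fin 2))) (θ : ℝ) : ℝ :=
  sSup ((fun x : EuclideanSpace ℝ (Fin 2) => x 0 * Real.cos θ + x 1 * Real.sin θ) '' K)

/-- the first intrinsic volume -/
noncomputable def V₁ (K : Set (EuclideanSpace ℝ (Fin 2))) : ℝ :=
  1 / 2 * ∫ θ in (0 : ℝ)..(2 * Real.pi), supp K θ

open Pool.Agent.Y508

theorem supp_eq (K : Set E2) : supp K = hs K := rfl

theorem V₁_eq (K : Set E2) : V₁ K = 1 / 2 * ∫ θ in (0 : ℝ)..(2 * Real.pi), hs K θ := rfl

/-- convex hull with the origin -/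
noncomputable def co (K : Set E2) : Set E2 := (fun q : ℝ × E2 => q.1 • q.2) '' (Icc (0 : ℝ) 1 ×ˢ K)

variable {K L : Set E2}

theorem sub_co (K : Set E2) : K ⊆ co K := fun x hx => ⟨(1, x), ⟨⟨zero_le_one, le_rfl⟩, hx⟩, by simp⟩

theorem zero_co (hK : K.Nonempty) : (0 : E2) ∈ co K := by
  obtain ⟨x, hx⟩ := hK
  exact ⟨(0, x), ⟨⟨le_rfl, zero_le_one⟩, hx⟩, by simp⟩

theorem co_mono (h : K ⊆ L) : co K ⊆ co L := image_mono (prod_mono le_rfl h)

theorem co_body (hK : IsConvexCompact K) : IsConvexCompact (co K) where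
  nonempty := ⟨0, zero_co hK.nonempty⟩
  compact := (isCompact_Icc.prod hK.compact).image (by fun_prop)
  convex := by
    rintro _ ⟨⟨s, x⟩, ⟨hs, hx⟩, rfl⟩ _ ⟨⟨t, y⟩, ⟨ht, hy⟩, rfl⟩ a b ha hb hab
    simp only at hs ht hx hy ⊢
    have h0 : 0 ≤ a * s + b * t :=
      add_nonneg (mul_nonneg ha hs.1) (mul_nonneg hb ht.1)
    have h1 : a * s + b * t ≤ 1 := by
      have := mul_le_mul_of_nonneg_left hs.2 ha
      have := mul_le_mul_of_nonneg_left ht.2 hb
      linarith
    rcases h0.lt_or_eq with h | h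
    · refine ⟨(a * s + b * t, (a * s / (a * s + b * t)) • x + (b * t / (a * s + b * t)) • y),
        ⟨⟨h0, h1⟩, ?_⟩, ?_⟩
      · apply hK.convex hx hy
        · exact div_nonneg (mul_nonneg ha hs.1) h0
        · exact div_nonneg (mul_nonneg hb ht.1) h0
        · field_simp
      · simp only [smul_add, smul_smul]
        rw [mul_div_cancel₀ _ h.ne', mul_div_cancel₀ _ h.ne']
    · have e1 : a * s = 0 := by nlinarith [mul_nonneg ha hs.1, mul_nonneg hb ht.1]
      have e2 : b * t = 0 := by nlinarith [mul_nonneg ha hs.1, mul_nonneg hb ht.1]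
      rw [smul_smul, smul_smul, e1, e2, zero_smul, zero_smul, add_zero]
      exact zero_co hK.nonempty

theorem hs_co (hK : IsConvexCompact K) (θ : ℝ) : hs (co K) θ = max (hs K θ) 0 := by
  have hc := co_body hK
  apply le_antisymm
  · apply hs_le hc.nonempty
    rintro _ ⟨⟨s, x⟩, ⟨hs', hx⟩, rfl⟩
    simp only at hs' hx ⊢
    rw [ip_smul]
    have h1 : ip x θ ≤ max (hs K θ) 0 := (le_hs hK.compact hx θ).trans (le_max_left _ _)
    have h2 : 0 ≤ max (hs K θ) 0 := le_max_right _ _
    calc s * ip x θ ≤ s * max (hs K θ) 0 := mul_le_mul_of_nonneg_left h1 hs'.1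
      _ ≤ 1 * max (hs K θ) 0 := mul_le_mul_of_nonneg_right hs'.2 h2
      _ = _ := one_mul _
  · apply max_le
    · exact hs_mono hc.compact hK.nonempty (sub_co K) θ
    · have := le_hs hc.compact (zero_co hK.nonempty) θ
      simpa [ip] using this

theorem V₁_mono (hK : IsConvexCompact K) (hL : IsConvexCompact L) (h : K ⊆ L) : V₁ K ≤ V₁ L := by
  rw [V₁_eq, V₁_eq]
  apply mul_le_mul_of_nonneg_left _ (by norm_num)
  apply intervalIntegral.integral_mono_on (by positivity)
  · exact (cont_hs hK.compact).intervalIntegrable _ _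
  · exact (cont_hs hL.compact).intervalIntegrable _ _
  · intro θ _
    exact hs_mono hL.compact hK.nonempty h θ

theorem int_shift (K : Set E2) :
    ∫ θ in (0 : ℝ)..(2 * Real.pi), hs K (θ + Real.pi) = ∫ θ in (0 : ℝ)..(2 * Real.pi), hs K θ := by
  have hper : Function.Periodic (hs K) (2 * Real.pi) := hs_two_pi K
  have h1 := hper.intervalIntegral_add_eq Real.pi 0
  have h2 := intervalIntegral.integral_comp_add_right (a := (0 : ℝ)) (b := 2 * Real.pi)
    (hs K) Real.pi
  rw [h2, zero_add, add_comm (2 * Real.pi), h1, zero_add]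

theorem V₁_width (hK : IsConvexCompact K) :
    V₁ K = 1 / 4 * ∫ θ in (0 : ℝ)..(2 * Real.pi), (hs K θ + hs K (θ + Real.pi)) := by
  have hc := cont_hs hK.compact
  have hc2 : Continuous fun θ : ℝ => hs K (θ + Real.pi) := by fun_prop
  have h1 := intervalIntegral.integral_add (hc.intervalIntegrable (μ := volume) 0 (2 * Real.pi))
    (hc2.intervalIntegrable (μ := volume) 0 (2 * Real.pi))
  rw [V₁_eq, h1, int_shift K]
  ring

theorem width_nonneg (hK : IsConvexCompact K) (θ : ℝ) : 0 ≤ hs K θ + hs K (θ + Real.pi) := by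
  obtain ⟨x, hx⟩ := hK.nonempty
  have h1 := le_hs hK.compact hx θ
  have h2 := le_hs hK.compact hx (θ + Real.pi)
  rw [ip_add_pi] at h2
  linarith

theorem V₁_nonneg (hK : IsConvexCompact K) : 0 ≤ V₁ K := by
  rw [V₁_width hK]
  have : 0 ≤ ∫ θ in (0 : ℝ)..(2 * Real.pi), (hs K θ + hs K (θ + Real.pi)) :=
    intervalIntegral.integral_nonneg (by positivity) fun θ _ => width_nonneg hK θ
  linarith

/-- two distinct points give positive `V₁` -/
theorem V₁_pos (hK : IsConvexCompact K) {x y : E2} (hx : x ∈ K) (hy : y ∈ K) (hxy : x ≠ y) :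
    0 < V₁ K := by
  obtain ⟨φ, hφ⟩ := exists_pos_ev (x - y) (sub_ne_zero.2 hxy)
  have hn : 0 < ‖x - y‖ := norm_pos_iff.2 (sub_ne_zero.2 hxy)
  have hc := cont_hs hK.compact
  have hc2 : Continuous fun θ => hs K θ + hs K (θ + Real.pi) := by fun_prop
  have hper : Function.Periodic (fun θ => hs K θ + hs K (θ + Real.pi)) (2 * Real.pi) := by
    intro θ
    simp only
    rw [hs_two_pi, add_right_comm θ, hs_two_pi]
  rw [V₁_width hK]
  have h1 := hper.intervalIntegral_add_eq φ 0
  rw [zero_add] at h1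
  rw [← h1]
  have h2 : 0 < ∫ θ in φ..(φ + 2 * Real.pi), (hs K θ + hs K (θ + Real.pi)) := by
    apply intervalIntegral.integral_pos (by linarith [Real.pi_pos]) hc2.continuousOn
      (fun θ _ => width_nonneg hK θ)
    refine ⟨φ, ⟨le_rfl, by linarith [Real.pi_pos]⟩, ?_⟩
    have h3 := le_hs hK.compact hx φ
    have h4 := le_hs hK.compact hy (φ + Real.pi)
    rw [ip_add_pi] at h4
    have h5 : ip (x - y) φ = ‖x - y‖ := by
      have : ip (x - y) φ = ip (‖x - y‖ • ev φ) φ := by rw [← hφ]
      rw [this, ip_smul, ip_ev, sub_self, Real.cos_zero, mul_one]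
    rw [ip_sub] at h5
    linarith
  linarith

/-- scaled difference body -/
noncomputable def dia (S : Set E2) (c : ℝ) : Set E2 :=
  (fun q : E2 × E2 => (c / 2) • (q.1 - q.2)) '' (S ×ˢ S)

theorem dia_body {S : Set E2} (hS : IsConvexCompact S) (c : ℝ) : IsConvexCompact (dia S c) where
  nonempty := (hS.nonempty.prod hS.nonempty).image _
  compact := (hS.compact.prod hS.compact).image (by fun_prop)
  convex := by
    rintro _ ⟨⟨x, y⟩, ⟨hx, hy⟩, rfl⟩ _ ⟨⟨x', y'⟩, ⟨hx', hy'⟩, rfl⟩ a b ha hb hab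
    refine ⟨(a • x + b • x', a • y + b • y'), ⟨hS.convex hx hx' ha hb hab,
      hS.convex hy hy' ha hb hab⟩, ?_⟩
    simp only [smul_sub, smul_add, smul_smul]
    rw [mul_comm a, mul_comm b]
    abel

theorem dia_neg (S : Set E2) (c : ℝ) : -dia S c = dia S c := by
  have h : ∀ x ∈ dia S c, -x ∈ dia S c := by
    rintro _ ⟨⟨x, y⟩, ⟨hx, hy⟩, rfl⟩
    refine ⟨(y, x), ⟨hy, hx⟩, ?_⟩
    simp only
    rw [← smul_neg, neg_sub]
  ext x
  rw [Set.mem_neg]
  exact ⟨fun hx => by simpa using h _ hx, fun hx => h _ hx⟩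

theorem hs_dia {S : Set E2} (hS : IsConvexCompact S) {c : ℝ} (hc : 0 ≤ c) (θ : ℝ) :
    hs (dia S c) θ = c / 2 * (hs S θ + hs S (θ + Real.pi)) := by
  have hd := dia_body hS c
  apply le_antisymm
  · apply hs_le hd.nonempty
    rintro _ ⟨⟨x, y⟩, ⟨hx, hy⟩, rfl⟩
    simp only
    rw [ip_smul, ip_sub]
    have h1 := le_hs hS.compact hx θ
    have h2 := le_hs hS.compact hy (θ + Real.pi)
    rw [ip_add_pi] at h2
    apply mul_le_mul_of_nonneg_left _ (by linarith)
    linarith
  · obtain ⟨x, hx, hxe⟩ := exists_hs hS.compact hS.nonempty θ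
    obtain ⟨y, hy, hye⟩ := exists_hs hS.compact hS.nonempty (θ + Real.pi)
    have hmem : (c / 2) • (x - y) ∈ dia S c := ⟨(x, y), ⟨hx, hy⟩, rfl⟩
    have h1 := le_hs hd.compact hmem θ
    rw [ip_smul, ip_sub] at h1
    rw [ip_add_pi] at hye
    rw [hxe, hye]
    linarith

theorem V₁_dia {S : Set E2} (hS : IsConvexCompact S) {c : ℝ} (hc : 0 ≤ c) :
    V₁ (dia S c) = c * V₁ S := by
  have hcont := cont_hs hS.compact
  rw [V₁_width hS, V₁_eq]
  have : (∫ θ in (0 : ℝ)..(2 * Real.pi), hs (dia S c) θ) =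
      ∫ θ in (0 : ℝ)..(2 * Real.pi), c / 2 * (hs S θ + hs S (θ + Real.pi)) := by
    congr 1
    ext θ
    exact hs_dia hS hc θ
  rw [this, intervalIntegral.integral_const_mul]
  ring

/-- the factor -/
noncomputable def fac (K : Set E2) : ℝ := V₁ K / V₁ (co K)

/-- the symmetrization -/
noncomputable def D (K : Set E2) : Set E2 := dia (co K) (fac K)

theorem fac_nonneg (hK : IsConvexCompact K) : 0 ≤ fac K :=
  div_nonneg (V₁_nonneg hK) (V₁_nonneg (co_body hK))

theorem co_excess (hK : IsConvexCompact K) (hL : IsConvexCompact L) (h : K ⊆ L) :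
    V₁ (co L) - V₁ L ≤ V₁ (co K) - V₁ K := by
  have hcK := cont_hs hK.compact
  have hcL := cont_hs hL.compact
  have hcK' := cont_hs (co_body hK).compact
  have hcL' := cont_hs (co_body hL).compact
  simp only [V₁_eq]
  rw [← mul_sub, ← mul_sub, ← intervalIntegral.integral_sub (hcL'.intervalIntegrable _ _)
    (hcL.intervalIntegrable _ _), ← intervalIntegral.integral_sub (hcK'.intervalIntegrable _ _)
    (hcK.intervalIntegrable _ _)]
  apply mul_le_mul_of_nonneg_left _ (by norm_num)
  apply intervalIntegral.integral_mono_on (by positivity)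
    ((hcL'.sub hcL).intervalIntegrable _ _) ((hcK'.sub hcK).intervalIntegrable _ _)
  intro θ _
  simp only [Pi.sub_apply]
  rw [hs_co hK, hs_co hL]
  have h1 := hs_mono hL.compact hK.nonempty h θ
  rcases le_total (hs K θ) 0 with h2 | h2
  · rw [max_eq_right h2]
    rcases le_total (hs L θ) 0 with h3 | h3
    · rw [max_eq_right h3]; linarith
    · rw [max_eq_left h3]; linarith
  · rw [max_eq_left h2, max_eq_left (h2.trans h1)]
    linarith

theorem fac_mono (hK : IsConvexCompact K) (hL : IsConvexCompact L) (h : K ⊆ L) :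
    fac K ≤ fac L := by
  have hcK := co_body hK
  have hcL := co_body hL
  have k0 := V₁_nonneg hK
  have l0 := V₁_nonneg hL
  have k1 := V₁_nonneg hcK
  have l1 := V₁_nonneg hcL
  have hkl := V₁_mono hK hL h
  have hkl' := V₁_mono hcK hcL (co_mono h)
  unfold fac
  rcases k1.lt_or_eq with h1 | h1
  · have h2 : 0 < V₁ (co L) := lt_of_lt_of_le h1 hkl'
    rw [div_le_div_iff₀ h1 h2]
    have h3 := co_excess hK hL h
    have h4 : V₁ K ≤ V₁ (co K) := V₁_mono hK hcK (sub_co K)
    have h5 : V₁ L ≤ V₁ (co L) := V₁_mono hL hcL (sub_co L)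
    nlinarith
  · rw [← h1, div_zero]
    exact div_nonneg l0 l1

theorem dia_mono {S T : Set E2} (h : S ⊆ T) (hT : Convex ℝ T) (h0 : (0 : E2) ∈ T) {c d : ℝ}
    (hc : 0 ≤ c) (hcd : c ≤ d) : dia S c ⊆ dia T d := by
  rintro _ ⟨⟨x, y⟩, ⟨hx, hy⟩, rfl⟩
  simp only
  rcases (hc.trans hcd).lt_or_eq with hd | hd
  · have key : ∀ z ∈ T, (c / d) • z ∈ T := by
      intro z hz
      exact hT.smul_mem_of_zero_mem h0 hz ⟨div_nonneg hc hd.le, (div_le_one hd).2 hcd⟩
    refine ⟨((c / d) • x, (c / d) • y), ⟨key x (h hx), key y (h hy)⟩, ?_⟩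
    simp only
    rw [← smul_sub, smul_smul]
    congr 1
    field_simp
  · have hc' : c = 0 := le_antisymm (by linarith) hc
    refine ⟨(0, 0), ⟨h0, h0⟩, ?_⟩
    simp [hc']

theorem D_symm (hK : IsConvexCompact K) (hs' : -K = K) : D K = K := by
  have h0 : (0 : E2) ∈ K := by
    obtain ⟨x, hx⟩ := hK.nonempty
    have hx' : -x ∈ K := by rw [← hs']; simpa using hx
    have := hK.convex hx hx' (by norm_num : (0 : ℝ) ≤ 1 / 2) (by norm_num : (0 : ℝ) ≤ 1 / 2)
      (by norm_num)
    simpa using this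
  have hco : co K = K := by
    apply Subset.antisymm _ (sub_co K)
    rintro _ ⟨⟨s, x⟩, ⟨hs, hx⟩, rfl⟩
    exact hK.convex.smul_mem_of_zero_mem h0 hx hs
  unfold D fac
  rw [hco]
  rcases (V₁_nonneg hK).lt_or_eq with h | h
  · rw [div_self h.ne']
    apply Subset.antisymm
    · rintro _ ⟨⟨x, y⟩, ⟨hx, hy⟩, rfl⟩
      simp only
      have hy' : -y ∈ K := by rw [← hs']; simpa using hy
      have := hK.convex hx hy' (by norm_num : (0 : ℝ) ≤ 1 / 2) (by norm_num : (0 : ℝ) ≤ 1 / 2)
        (by norm_num)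
      rw [← smul_add, ← sub_eq_add_neg] at this
      exact this
    · intro x hx
      have hx' : -x ∈ K := by rw [← hs']; simpa using hx
      refine ⟨(x, -x), ⟨hx, hx'⟩, ?_⟩
      simp only
      rw [sub_neg_eq_add, ← two_smul ℝ x, smul_smul]
      norm_num
  · have hall : ∀ x ∈ K, x = 0 := by
      intro x hx
      by_contra hne
      have := V₁_pos hK hx h0 hne
      rw [← h] at this
      exact lt_irrefl _ this
    have hK0 : K = {0} := by
      ext x
      rw [mem_singleton_iff]
      exact ⟨hall x, fun h => h ▸ h0⟩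
    rw [hK0]
    ext x
    simp [dia]

/-- There is a symmetrization of the planar convex compacta that is monotonic, invariant on
origin-symmetric sets and `V₁`-preserving, but maps some segment to a set that is not a segment. -/
theorem result : ∃ S : Set (EuclideanSpace ℝ (Fin 2)) → Set (EuclideanSpace ℝ (Fin 2)),
    (∀ K, IsConvexCompact K → IsConvexCompact (S K) ∧ -(S K) = S K) ∧
    (∀ K L, IsConvexCompact K → IsConvexCompact L → K ⊆ L → S K ⊆ S L) ∧
    (∀ K, IsConvexCompact K → -K = K → S K = K) ∧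
    (∀ K, IsConvexCompact K → V₁ (S K) = V₁ K) ∧
    ∃ a b : EuclideanSpace ℝ (Fin 2), a ≠ b ∧ ∀ c d, S (segment ℝ a b) ≠ segment ℝ c d := by
  refine ⟨D, fun K hK => ⟨dia_body (co_body hK) _, dia_neg _ _⟩, ?_, fun K hK h => D_symm hK h,
    ?_, ?_⟩
  · intro K L hK hL h
    exact dia_mono (co_mono h) (co_body hL).convex (zero_co hL.nonempty) (fac_nonneg hK)
      (fac_mono hK hL h)
  · intro K hK
    unfold D
    rw [V₁_dia (co_body hK) (fac_nonneg hK)]
    unfold fac
    rcases (V₁_nonneg (co_body hK)).lt_or_eq with h | h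
    · field_simp
    · rw [← h, mul_zero]
      have h1 := V₁_nonneg hK
      have h2 := V₁_mono hK (co_body hK) (sub_co K)
      linarith
  · refine ⟨pt 1 0, pt 0 1, ?_, ?_⟩
    · intro h
      have : (pt 1 0) 0 = (pt 0 1) 0 := by rw [h]
      simp at this
    · intro p q hpq
      set K := segment ℝ (pt 1 0) (pt 0 1) with hKd
      have hK : IsConvexCompact K := by
        refine ⟨⟨_, left_mem_segment ℝ _ _⟩, ?_, convex_segment _ _⟩
        rw [hKd, segment_eq_image]
        exact isCompact_Icc.image (by fun_prop)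
      have ha : pt 1 0 ∈ K := left_mem_segment ℝ _ _
      have hb : pt 0 1 ∈ K := right_mem_segment ℝ _ _
      have hab : pt 1 0 ≠ pt 0 1 := by
        intro h
        have : (pt 1 0) 0 = (pt 0 1) 0 := by rw [h]
        simp at this
      have hV := V₁_pos hK ha hb hab
      have hV' := V₁_pos (co_body hK) (sub_co K ha) (sub_co K hb) hab
      have hf : 0 < fac K := div_pos hV hV'
      have m0 : (0 : E2) ∈ D K :=
        ⟨(0, 0), ⟨zero_co hK.nonempty, zero_co hK.nonempty⟩, by simp⟩
      have m1 : (fac K / 2) • (pt 1 0) ∈ D K :=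
        ⟨(pt 1 0, 0), ⟨sub_co K ha, zero_co hK.nonempty⟩, by simp⟩
      have m2 : (fac K / 2) • (pt 0 1) ∈ D K :=
        ⟨(pt 0 1, 0), ⟨sub_co K hb, zero_co hK.nonempty⟩, by simp⟩
      rw [hpq, segment_eq_image'] at m0 m1 m2
      obtain ⟨t0, -, h0⟩ := m0
      obtain ⟨t1, -, h1⟩ := m1
      obtain ⟨t2, -, h2⟩ := m2
      have c00 : p 0 + t0 * (q 0 - p 0) = 0 := by
        have := congrArg (fun z : E2 => z 0) h0; simpa using this
      have c01 : p 1 + t0 * (q 1 - p 1) = 0 := by
        have := congrArg (fun z : E2 => z 1) h0; simpa using this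
      have c10 : p 0 + t1 * (q 0 - p 0) = fac K / 2 := by
        have := congrArg (fun z : E2 => z 0) h1; simpa using this
      have c11 : p 1 + t1 * (q 1 - p 1) = 0 := by
        have := congrArg (fun z : E2 => z 1) h1; simpa using this
      have c20 : p 0 + t2 * (q 0 - p 0) = 0 := by
        have := congrArg (fun z : E2 => z 0) h2; simpa using this
      have c21 : p 1 + t2 * (q 1 - p 1) = fac K / 2 := by
        have := congrArg (fun z : E2 => z 1) h2; simpa using this
      have e1 : (t1 - t0) * (q 0 - p 0) = fac K / 2 := by linarith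
      have e2 : (t1 - t0) * (q 1 - p 1) = 0 := by linarith
      have e3 : (t2 - t0) * (q 0 - p 0) = 0 := by linarith
      have e4 : (t2 - t0) * (q 1 - p 1) = fac K / 2 := by linarith
      have e5 : (fac K / 2) * (fac K / 2) = 0 := by
        calc (fac K / 2) * (fac K / 2) = ((t1 - t0) * (q 0 - p 0)) * ((t2 - t0) * (q 1 - p 1)) := by
              rw [e1, e4]
          _ = ((t1 - t0) * (q 1 - p 1)) * ((t2 - t0) * (q 0 - p 0)) := by ring
          _ = 0 := by rw [e2, zero_mul]
      have : 0 < (fac K / 2) * (fac K / 2) := by positivity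
      linarith

end Pool.Agent.Results.MP_84aa88_gt.NonCanonical
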